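import Pool.Agent.H90.WprProof

set_option autoImplicit false

namespace Pool.Agent.Results.MP_e57dcf_an.NotDense

/-- `x` and `y` weakly have the same phase. -/
def WeakSamePhase {n : ℕ} (x y : EuclideanSpace ℝ (Fin n)) : Prop :=
  ∃ θ : SignType, (θ = 1 ∨ θ = -1) ∧
    ∀ k, x k * y k ≠ 0 → SignType.sign (x k) = θ * SignType.sign (y k)

/-- The frames of `m` vectors for `ℝⁿ` (spanning families). -/
def Frames (n m : ℕ) : Set (Fin m → EuclideanSpace ℝ (Fin n)) :=
  {w | Submodule.span ℝ (Set.range w) = ⊤}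

/-- The families of `m` vectors doing weak phase retrieval in `ℝⁿ`. -/
def WeakPR (n m : ℕ) : Set (Fin m → EuclideanSpace ℝ (Fin n)) :=
  {w | ∀ x y : EuclideanSpace ℝ (Fin n),
    (∀ i, |inner ℝ x (w i)| = |inner ℝ y (w i)|) → WeakSamePhase x y}

/-- Weak phase retrievable frames with `2n-2` vectors are not dense in the frames. -/
theorem result (n : ℕ) (hn : 2 ≤ n) :
    ¬ Frames n (2 * n - 2) ⊆ closure (Frames n (2 * n - 2) ∩ WeakPR n (2 * n - 2)) := by
  intro h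
  obtain ⟨b, hb, ε, hε, H⟩ := Pool.Agent.H90.WprProof.main n hn
  obtain ⟨w, hw, hd⟩ := Metric.mem_closure_iff.1 (h hb) ε hε
  obtain ⟨x, y, hxy, k, l, hk, hl⟩ := H w (by rwa [dist_comm])
  obtain ⟨θ, hθ, h2⟩ := hw.2 x y hxy
  have h3 := h2 k hk.ne'
  have h4 := h2 l hl.ne
  rcases hθ with rfl | rfl
  · rcases mul_neg_iff.1 hl with h5 | h5 <;> simp [sign_pos, sign_neg, h5.1, h5.2] at h4
  · rcases mul_pos_iff.1 hk with h5 | h5 <;> simp [sign_pos, sign_neg, h5.1, h5.2] at h3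

end Pool.Agent.Results.MP_e57dcf_an.NotDense
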